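import Mathlib

/-!
# The Pixley-Roy hyperspace of a selectively highly divergent space
-/

set_option autoImplicit false

open Filter Topology

namespace Pool.Agent.Results.MP_3a5480_gt.PixleyRoySHD

universe u

/-- `X` is selectively highly divergent: for every sequence of nonempty open sets `U n` one can
choose points `x n ∈ U n` such that no subsequence of `x` converges to a point of `X`. -/
def SHD (X : Type u) [TopologicalSpace X] : Prop :=
  ∀ U : ℕ → Set X, (∀ n, IsOpen (U n)) → (∀ n, (U n).Nonempty) →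
    ∃ x : ℕ → X, (∀ n, x n ∈ U n) ∧
      ∀ φ : ℕ → ℕ, StrictMono φ → ∀ a : X, ¬ Tendsto (fun k => x (φ k)) atTop (𝓝 a)

/-- The nonempty finite subsets of `X`. -/
def PR (X : Type u) : Type u := {A : Set X // A.Finite ∧ A.Nonempty}

/-- The set `[F, V]` of all nonempty finite sets `H` with `F ⊆ H ⊆ V`. -/
def box {X : Type u} (F V : Set X) : Set (PR X) := {H | F ⊆ H.1 ∧ H.1 ⊆ V}

/-- The Pixley-Roy topology: a set is open if it contains, with each of its points `F`, a set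
`[F, V]` with `V` open and `F ⊆ V`. -/
instance (X : Type u) [TopologicalSpace X] : TopologicalSpace (PR X) where
  IsOpen 𝒰 := ∀ F ∈ 𝒰, ∃ V : Set X, IsOpen V ∧ F.1 ⊆ V ∧ box F.1 V ⊆ 𝒰
  isOpen_univ := fun _ _ => ⟨Set.univ, isOpen_univ, Set.subset_univ _, Set.subset_univ _⟩
  isOpen_inter := by
    rintro 𝒰 𝒱 h1 h2 F ⟨hF1, hF2⟩
    obtain ⟨V, hV, hFV, hb⟩ := h1 F hF1
    obtain ⟨W, hW, hFW, hb'⟩ := h2 F hF2
    refine ⟨V ∩ W, hV.inter hW, Set.subset_inter hFV hFW, fun H hH => ⟨hb ⟨hH.1, ?_⟩, hb' ⟨hH.1, ?_⟩⟩⟩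
    · exact hH.2.trans Set.inter_subset_left
    · exact hH.2.trans Set.inter_subset_right
  isOpen_sUnion := by
    rintro S hS F ⟨𝒰, h𝒰, hF⟩
    obtain ⟨V, hV, hFV, hb⟩ := hS 𝒰 h𝒰 F hF
    exact ⟨V, hV, hFV, fun H hH => ⟨𝒰, h𝒰, hb hH⟩⟩

theorem isOpen_box {X : Type u} [TopologicalSpace X] (F V : Set X) (hV : IsOpen V) :
    IsOpen (box F V) := by
  rintro H ⟨h1, h2⟩
  exact ⟨V, hV, h2, fun K hK => ⟨h1.trans hK.1, hK.2⟩⟩

/-- Sanity check: the sets `[F, V]`, `V` open with `F ⊆ V`, form a local base at `F`. -/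
theorem nhds_basis {X : Type u} [TopologicalSpace X] (F : PR X) :
    (𝓝 F).HasBasis (fun V : Set X => IsOpen V ∧ F.1 ⊆ V) (fun V => box F.1 V) := by
  refine ⟨fun 𝒩 => ⟨fun h => ?_, ?_⟩⟩
  · obtain ⟨𝒰, h1, h2, h3⟩ := mem_nhds_iff.1 h
    obtain ⟨V, hV, hFV, hb⟩ := h2 F h3
    exact ⟨V, ⟨hV, hFV⟩, hb.trans h1⟩
  · rintro ⟨V, ⟨hV, hFV⟩, hb⟩
    exact mem_nhds_iff.2 ⟨box F.1 V, hb, isOpen_box _ _ hV, ⟨subset_rfl, hFV⟩⟩

/-- If a sequence is eventually in every open set containing the finite set `A`, then a subsequence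
converges to a point of `A`. -/
theorem exists_subseq {X : Type u} [TopologicalSpace X] (A : Set X) (hA : A.Finite) :
    ∀ x : ℕ → X, (∀ V : Set X, IsOpen V → A ⊆ V → ∀ᶠ n in atTop, x n ∈ V) →
      ∃ φ : ℕ → ℕ, StrictMono φ ∧ ∃ a ∈ A, Tendsto (fun k => x (φ k)) atTop (𝓝 a) := by
  induction A, hA using Set.Finite.induction_on with
  | empty =>
    intro x h
    have := (h ∅ isOpen_empty (Set.empty_subset _)).exists
    obtain ⟨n, hn⟩ := this
    exact hn.elim
  | @insert a A ha hA ih =>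
    intro x h
    by_cases hconv : Tendsto x atTop (𝓝 a)
    · exact ⟨id, strictMono_id, a, Set.mem_insert _ _, hconv⟩
    · have : ∃ U : Set X, IsOpen U ∧ a ∈ U ∧ ∃ᶠ n in atTop, x n ∉ U := by
        by_contra hcon
        push Not at hcon
        apply hconv
        rw [tendsto_nhds]
        intro U hU haU
        exact hcon U hU haU
      obtain ⟨U, hU, haU, hfr⟩ := this
      obtain ⟨φ, hφ, hφU⟩ := extraction_of_frequently_atTop hfr
      obtain ⟨ψ, hψ, b, hb, hlim⟩ := ih (fun k => x (φ k)) (by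
        intro W hW hAW
        have h1 := h (U ∪ W) (hU.union hW)
          (Set.insert_subset (Or.inl haU) (hAW.trans Set.subset_union_right))
        filter_upwards [hφ.tendsto_atTop.eventually h1] with k hk
        exact hk.resolve_left (hφU k))
      exact ⟨φ ∘ ψ, hφ.comp hψ, b, Set.mem_insert_of_mem _ hb, hlim⟩

/-- **Positive answer to Q1 of MP_3a5480.** The Pixley-Roy hyperspace of a selectively highly
divergent space is selectively highly divergent. -/
theorem result (X : Type u) [TopologicalSpace X] (h : SHD X) : SHD (PR X) := by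
  intro 𝒰 h𝒰 hne
  choose F hF using hne
  choose V hV hFV hbox using fun n => h𝒰 n (F n) (hF n)
  obtain ⟨x, hxV, hx⟩ := h V hV (fun n => (F n).2.2.mono (hFV n))
  refine ⟨fun n => ⟨insert (x n) (F n).1, (F n).2.1.insert _, Set.insert_nonempty _ _⟩,
    fun n => hbox n ⟨Set.subset_insert _ _, Set.insert_subset (hxV n) (hFV n)⟩, ?_⟩
  intro φ hφ A hA
  obtain ⟨ψ, hψ, a, -, hlim⟩ := exists_subseq A.1 A.2.1 (fun k => x (φ k)) (by
    intro W hW hAW
    have h1 := (nhds_basis A).mem_of_mem (i := W) ⟨hW, hAW⟩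
    filter_upwards [hA h1] with k hk
    exact hk.2 (Set.mem_insert _ _))
  exact hx (φ ∘ ψ) (hφ.comp hψ) a hlim

end Pool.Agent.Results.MP_3a5480_gt.PixleyRoySHD
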